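import Pool.Agent.Results.MP_c26838_an.AsyStableRank
import Mathlib.Topology.Algebra.Module.FiniteDimension

/-!
# An ideal of a stable normed algebra that is not stable

The algebra is `ℂ ⊕ ℂ e` with `e ^ 2 = e` and the norm `|a| + 2 |u|` of `a + u e`. It is unital and
its unit has norm one, so it is stable; in the ideal `ℂ e` multiplication by `e` is the identity,
while `e` has norm two.
-/

set_option autoImplicit false

namespace Pool.Agent.Results.MP_3ea013_an.IdealNotStable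

open Pool.Agent.Results.MP_c26838_an.AsyStableRank

/-- `S`, a set of elements of a normed ring, is left stable (tested against elements of `S`). -/
def LeftStable {A : Type} [NormedRing A] (S : Set A) : Prop :=
  ∀ a ∈ S, ∀ M : ℝ, 0 < M → (∀ b ∈ S, ‖a * b‖ ≤ M * ‖b‖) → ‖a‖ ≤ M

/-- `S`, a set of elements of a normed ring, is right stable (tested against elements of `S`). -/
def RightStable {A : Type} [NormedRing A] (S : Set A) : Prop :=
  ∀ a ∈ S, ∀ M : ℝ, 0 < M → (∀ b ∈ S, ‖b * a‖ ≤ M * ‖b‖) → ‖a‖ ≤ M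

/-- The ideal `ℂ e`. -/
noncomputable def idealE : Submodule ℂ (AJ ℂ 1) where
  carrier := {x | ∃ u : ℂ, x = mk ℂ 1 0 u}
  zero_mem' := ⟨0, rfl⟩
  add_mem' := by
    rintro _ _ ⟨u, rfl⟩ ⟨v, rfl⟩
    exact ⟨u + v, by rw [mk_add, add_zero]⟩
  smul_mem' := by
    rintro c _ ⟨u, rfl⟩
    refine ⟨c * u, ?_⟩
    change mk ℂ 1 (c * 0) (c * u) = _
    rw [mul_zero]

theorem mem_idealE (x : AJ ℂ 1) : x ∈ idealE ↔ ∃ u : ℂ, x = mk ℂ 1 0 u := Iff.rfl

/-- There is a commutative complex Banach algebra with a unit of norm one, which is a stable normed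
algebra, with a closed (two-sided) ideal that is neither left stable nor right stable. -/
theorem result :
    ∃ (A : Type) (_ : NormedRing A) (_ : NormedAlgebra ℂ A) (_ : CompleteSpace A)
      (I : Submodule ℂ A),
      (∀ a b : A, a * b = b * a) ∧
      (LeftStable (Set.univ : Set A) ∧ RightStable (Set.univ : Set A)) ∧
      (∀ a : A, ∀ x ∈ I, a * x ∈ I ∧ x * a ∈ I) ∧ IsClosed (I : Set A) ∧
      ¬ LeftStable (I : Set A) ∧ ¬ RightStable (I : Set A) := by
  have hcomm : ∀ a b : AJ ℂ 1, a * b = b * a := by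
    intro x y
    obtain ⟨a, u, rfl⟩ := exists_mk ℂ 1 x
    obtain ⟨b, v, rfl⟩ := exists_mk ℂ 1 y
    rw [mk_mul, mk_mul]
    congr 1
    · ring
    · simp only [smul_eq_mul]
      ring
  have hnorm : ∀ u : ℂ, ‖mk ℂ 1 0 u‖ = 2 * ‖u‖ := by
    intro u
    rw [norm_mk, norm_zero]
    norm_num
  have hmul : ∀ u v : ℂ, mk ℂ 1 0 u * mk ℂ 1 0 v = mk ℂ 1 0 (u * v) := by
    intro u v
    rw [mk_mul]
    congr 1
    · ring
    · simp
  have hfin : FiniteDimensional ℂ (AJ ℂ 1) := by
    let L : (ℂ × ℂ) →ₗ[ℂ] AJ ℂ 1 :=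
      { toFun := fun p => mk ℂ 1 p.1 p.2
        map_add' := fun p q => rfl
        map_smul' := fun c p => rfl }
    refine Module.Finite.of_surjective L ?_
    intro x
    obtain ⟨a, u, rfl⟩ := exists_mk ℂ 1 x
    exact ⟨(a, u), rfl⟩
  have hI : ∀ a : AJ ℂ 1, ∀ x ∈ idealE, a * x ∈ idealE := by
    intro y x hx
    obtain ⟨v, rfl⟩ := hx
    obtain ⟨b, w, rfl⟩ := exists_mk ℂ 1 y
    rw [mk_mul]
    exact ⟨_, by rw [mul_zero]⟩
  refine ⟨AJ ℂ 1, inferInstance, inferInstance, inferInstance, idealE, hcomm, ⟨?_, ?_⟩, ?_, ?_,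
    ?_, ?_⟩
  · intro a _ M _ h
    have := h 1 (Set.mem_univ _)
    rwa [mul_one, norm_one, mul_one] at this
  · intro a _ M _ h
    have := h 1 (Set.mem_univ _)
    rwa [one_mul, norm_one, mul_one] at this
  · intro a x hx
    exact ⟨hI a x hx, by rw [hcomm]; exact hI a x hx⟩
  · exact Submodule.closed_of_finiteDimensional idealE
  · intro h
    have h1 := h (mk ℂ 1 0 1) ⟨1, rfl⟩ 1 one_pos (by
      rintro _ ⟨v, rfl⟩
      rw [hmul, one_mul, one_mul])
    rw [hnorm, norm_one] at h1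
    norm_num at h1
  · intro h
    have h1 := h (mk ℂ 1 0 1) ⟨1, rfl⟩ 1 one_pos (by
      rintro _ ⟨v, rfl⟩
      rw [hmul, mul_one, one_mul])
    rw [hnorm, norm_one] at h1
    norm_num at h1

end Pool.Agent.Results.MP_3ea013_an.IdealNotStable
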